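import Mathlib
import Pool.Agent.R664.DF.Main

/-!
# The one-relator group `⟨a, t | t² a t⁻² = [a, t a t⁻¹]⟩`
-/

set_option autoImplicit false

namespace Pool.Agent.R664.OR

open FreeGroup (of)

/-- the free group of rank two -/
abbrev F2 : Type := FreeGroup (Fin 2)

/-- the endomorphism `x ↦ y`, `y ↦ [x, y]` -/
def ph : F2 →* F2 := FreeGroup.lift ![of 1, of 0 * of 1 * (of 0)⁻¹ * (of 1)⁻¹]

/-- the shift -/
def shf : MulAut (FreeGroup ℤ) := FreeGroup.freeGroupCongr (Equiv.addRight (1 : ℤ))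

/-- an auxiliary homomorphism -/
def aux : F2 →* SemidirectProduct (FreeGroup ℤ) (MulAut (FreeGroup ℤ)) (MonoidHom.id _) :=
  FreeGroup.lift ![SemidirectProduct.inr shf, SemidirectProduct.inl (of 0)]

/-- an auxiliary homomorphism -/
def bt : F2 →* FreeGroup ℤ := FreeGroup.lift ![of 0, of 1 * (of 0)⁻¹]

/-- the retraction -/
def ret : FreeGroup ℤ →* F2 :=
  FreeGroup.lift fun n => if n = 0 then of 0 else if n = 1 then of 1 * of 0 else 1

theorem ret_bt (w : F2) : ret (bt w) = w := by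
  have h : ret.comp bt = MonoidHom.id F2 := by
    ext1 i
    fin_cases i <;> simp [ret, bt]
  exact DFunLike.congr_fun h w

theorem aux_ph (w : F2) : aux (ph w) = SemidirectProduct.inl (bt w) := by
  have h : aux.comp ph = (SemidirectProduct.inl : FreeGroup ℤ →* _).comp bt := by
    ext1 i
    fin_cases i
    · simp [aux, ph, bt]
    · have h1 : (SemidirectProduct.inl (of (1 : ℤ)) :
          SemidirectProduct (FreeGroup ℤ) (MulAut (FreeGroup ℤ)) (MonoidHom.id _)) =
          SemidirectProduct.inr shf * SemidirectProduct.inl (of 0) *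
            (SemidirectProduct.inr shf)⁻¹ := by
        rw [← map_inv]
        have h2 := SemidirectProduct.inl_aut (φ := MonoidHom.id (MulAut (FreeGroup ℤ))) shf
          (of (0 : ℤ))
        rw [← h2]
        congr 1
      simp [aux, ph, bt, h1]
  exact DFunLike.congr_fun h w

theorem ph_inj : Function.Injective ph := by
  rw [injective_iff_map_eq_one]
  intro w hw
  have h1 := aux_ph w
  rw [hw, map_one] at h1
  have h2 : bt w = 1 := SemidirectProduct.inl_injective (h1.symm.trans (map_one _).symm)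
  rw [← ret_bt w, h2, map_one]

/-- the relator -/
def rel : F2 := of 1 ^ 2 * of 0 * (of 1 ^ 2)⁻¹ *
  (of 0 * (of 1 * of 0 * (of 1)⁻¹) * (of 0)⁻¹ * (of 1 * of 0 * (of 1)⁻¹)⁻¹)⁻¹

/-- the one-relator group -/
abbrev Gp : Type := PresentedGroup ({rel} : Set F2)

/-- the generators -/
def a : Gp := PresentedGroup.of 0

/-- the generators -/
def t : Gp := PresentedGroup.of 1

/-- the conjugates of `a` -/
def an (n : ℤ) : Gp := t ^ n * a * t ^ (-n)

theorem rel_eq : t ^ 2 * a * (t ^ 2)⁻¹ =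
    a * (t * a * t⁻¹) * a⁻¹ * (t * a * t⁻¹)⁻¹ := by
  have h1 : PresentedGroup.mk ({rel} : Set F2) rel = 1 := by
    rw [PresentedGroup.mk_eq_one_iff]
    exact Subgroup.subset_normalClosure rfl
  have h2 : PresentedGroup.mk ({rel} : Set F2) rel = t ^ 2 * a * (t ^ 2)⁻¹ *
      (a * (t * a * t⁻¹) * a⁻¹ * (t * a * t⁻¹)⁻¹)⁻¹ := rfl
  rw [h2] at h1
  exact mul_inv_eq_one.1 h1

theorem an_rel (n : ℤ) : an (n + 2) = an n * an (n + 1) * (an n)⁻¹ * (an (n + 1))⁻¹ := by
  have h0 : an (n + 2) = t ^ n * (t ^ 2 * a * (t ^ 2)⁻¹) * t ^ (-n) := by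
    simp only [an]
    rw [neg_add, zpow_add, add_comm, zpow_add t (-2) (-n)]
    have h : t ^ (2 : ℤ) = t ^ 2 := rfl
    rw [zpow_neg t 2, h]
    group
  rw [h0, rel_eq]
  simp only [an]
  rw [zpow_add, zpow_one, neg_add, zpow_add, zpow_neg_one]
  group

/-- the isomorphism -/
noncomputable def isoR : (⊤ : Subgroup F2) ≃* ph.range :=
  Subgroup.topEquiv.trans (MonoidHom.ofInjective ph_inj)

/-- the ascending HNN extension -/
abbrev HN : Type := HNNExtension F2 ⊤ ph.range isoR

theorem hnn_rel (w : F2) : (HNNExtension.of (ph w) : HN) =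
    HNNExtension.t * HNNExtension.of w * HNNExtension.t⁻¹ :=
  HNNExtension.equiv_eq_conj (φ := isoR) (⟨w, Subgroup.mem_top w⟩ : (⊤ : Subgroup F2))

/-- the map to the HNN extension -/
noncomputable def toH : Gp →* HN :=
  PresentedGroup.toGroup (f := ![HNNExtension.of (of 0), HNNExtension.t]) (by
    intro r hr
    rw [Set.mem_singleton_iff] at hr
    subst hr
    have h1 : (HNNExtension.t * HNNExtension.of (of 0) * HNNExtension.t⁻¹ : HN) =
        HNNExtension.of (of 1) := by
      have e1 : ph (of 0) = of 1 := by simp [ph]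
      rw [← hnn_rel, e1]
    have h2 : (HNNExtension.t * HNNExtension.of (of 1) * HNNExtension.t⁻¹ : HN) =
        HNNExtension.of (of 0 * of 1 * (of 0)⁻¹ * (of 1)⁻¹) := by
      have e1 : ph (of 1) = of 0 * of 1 * (of 0)⁻¹ * (of 1)⁻¹ := by simp [ph]
      rw [← hnn_rel, e1]
    have h3 : (HNNExtension.t ^ 2 * HNNExtension.of (of 0) * (HNNExtension.t ^ 2)⁻¹ : HN) =
        HNNExtension.of (of 0 * of 1 * (of 0)⁻¹ * (of 1)⁻¹) := by
      rw [← h2, ← h1, pow_two]
      group
    have h4 : FreeGroup.lift ![(HNNExtension.of (of 0) : HN), HNNExtension.t] rel =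
        (HNNExtension.t ^ 2 * HNNExtension.of (of 0) * (HNNExtension.t ^ 2)⁻¹ : HN) *
        (HNNExtension.of (of 0) * (HNNExtension.t * HNNExtension.of (of 0) * HNNExtension.t⁻¹) *
        (HNNExtension.of (of 0))⁻¹ *
        (HNNExtension.t * HNNExtension.of (of 0) * HNNExtension.t⁻¹)⁻¹)⁻¹ := by
      simp [rel]
    rw [h4, h3, h1, map_mul, map_mul, map_mul, map_inv, map_inv, mul_inv_cancel])

/-- the free subgroup -/
def j : F2 →* Gp := FreeGroup.lift ![a, t * a * t⁻¹]

theorem toH_a : toH a = HNNExtension.of (of 0) := by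
  simp [toH, a]

theorem toH_t : toH t = HNNExtension.t := by
  simp [toH, t]

theorem toH_j (w : F2) : toH (j w) = HNNExtension.of w := by
  have h : toH.comp j = HNNExtension.of := by
    ext1 i
    fin_cases i
    · simp [j, toH_a]
    · have h1 := hnn_rel (of 0)
      have h2 : ph (of 0) = of 1 := by simp [ph]
      rw [h2] at h1
      simp [j, toH_a, toH_t, h1]
  exact DFunLike.congr_fun h w

theorem j_inj : Function.Injective j := by
  intro v w h
  have h1 := congrArg toH h
  rw [toH_j, toH_j] at h1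
  exact HNNExtension.of_injective isoR h1

theorem a_ne : a ≠ 1 := by
  intro h
  have h1 : j (of 0) = j 1 := by
    rw [map_one]
    simp [j, h]
  exact FreeGroup.of_ne_one 0 (j_inj h1)

theorem an_mem (k : ℕ) : ∀ n : ℤ, an n ∈ derivedSeries Gp k := by
  induction k with
  | zero => intro n; exact Subgroup.mem_top _
  | succ k ih =>
    intro n
    have h1 := an_rel (n - 2)
    rw [sub_add_cancel] at h1
    rw [h1, derivedSeries_succ]
    exact Subgroup.commutator_mem_commutator (ih _) (ih _)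

/-- the homomorphism onto `ℤ` -/
def chi : Gp →* Multiplicative ℤ :=
  PresentedGroup.toGroup (f := ![1, Multiplicative.ofAdd 1]) (by
    intro r hr
    rw [Set.mem_singleton_iff] at hr
    subst hr
    simp [rel])

theorem chi_a : chi a = 1 := by simp [chi, a]

theorem chi_t : chi t = Multiplicative.ofAdd 1 := by simp [chi, t]

theorem chi_surj : Function.Surjective chi := by
  intro n
  refine ⟨t ^ (Multiplicative.toAdd n), ?_⟩
  rw [map_zpow, chi_t, ← ofAdd_zsmul]
  simp

theorem mem_a : a ∈ j.range := ⟨of 0, by simp [j]⟩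

theorem conj_mem {x : Gp} (hx : x ∈ j.range) : t * x * t⁻¹ ∈ j.range := by
  obtain ⟨w, rfl⟩ := hx
  refine ⟨ph w, ?_⟩
  have h : j.comp ph = (MulAut.conj t).toMonoidHom.comp j := by
    ext1 i
    fin_cases i
    · simp [j, ph]
    · have h1 := rel_eq
      simp only [MonoidHom.comp_apply]
      have h2 : j (ph (of 1)) = a * (t * a * t⁻¹) * a⁻¹ * (t * a * t⁻¹)⁻¹ := by
        simp [j, ph]
      have h3 : j (of 1) = t * a * t⁻¹ := by simp [j]
      change j (ph (of 1)) = MulAut.conj t (j (of 1))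
      rw [h2, h3, ← rel_eq, MulAut.conj_apply, pow_two]
      group
  exact DFunLike.congr_fun h w

theorem conj_pow_mem {x : Gp} (hx : x ∈ j.range) (m : ℕ) : t ^ m * x * (t ^ m)⁻¹ ∈ j.range := by
  induction m with
  | zero => simpa using hx
  | succ m ih =>
    have h1 : t ^ (m + 1) * x * (t ^ (m + 1))⁻¹ = t * (t ^ m * x * (t ^ m)⁻¹) * t⁻¹ := by
      rw [pow_succ']
      group
    rw [h1]
    exact conj_mem ih

/-- each element is conjugated into the free subgroup -/
theorem exists_conj (g : Gp) : ∃ C : ℕ, ∀ m : ℤ, (C : ℤ) ≤ m →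
    t ^ m * g * t ^ (-(m + Multiplicative.toAdd (chi g))) ∈ j.range := by
  induction g using PresentedGroup.induction_on with
  | _ w =>
  induction w using FreeGroup.induction_on with
  | C1 =>
    refine ⟨0, fun m _ => ?_⟩
    have h1 : PresentedGroup.mk ({rel} : Set F2) 1 = 1 := map_one _
    rw [h1, map_one]
    simp
  | of i =>
    fin_cases i
    · refine ⟨0, fun m hm => ?_⟩
      change t ^ m * a * t ^ (-(m + Multiplicative.toAdd (chi a))) ∈ _
      obtain ⟨n, rfl⟩ := Int.eq_ofNat_of_zero_le (by simpa using hm)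
      have h1 := conj_pow_mem mem_a n
      rw [chi_a]
      simpa using h1
    · refine ⟨0, fun m _ => ?_⟩
      change t ^ m * t * t ^ (-(m + Multiplicative.toAdd (chi t))) ∈ _
      rw [chi_t]
      have h1 : t ^ m * t * t ^ (-(m + Multiplicative.toAdd (Multiplicative.ofAdd (1 : ℤ)))) =
          1 := by
        change t ^ m * t * t ^ (-(m + 1)) = 1
        rw [← zpow_add_one, ← zpow_add]
        simp
      rw [h1]
      exact one_mem _
  | inv_of i ih =>
    obtain ⟨C, hC⟩ := ih
    obtain ⟨g, hg⟩ : ∃ g, g = PresentedGroup.mk ({rel} : Set F2) (of i) := ⟨_, rfl⟩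
    rw [← hg] at hC
    have h0 : PresentedGroup.mk ({rel} : Set F2) (of i)⁻¹ = g⁻¹ := by rw [map_inv, hg]
    rw [h0]
    obtain ⟨n, hn⟩ : ∃ n, n = Multiplicative.toAdd (chi g) := ⟨_, rfl⟩
    have h2 : Multiplicative.toAdd (chi g⁻¹) = -n := by rw [map_inv, toAdd_inv, hn]
    rw [← hn] at hC
    rw [h2]
    refine ⟨C + n.natAbs, fun m hm => ?_⟩
    have h3 := hC (m - n) (by omega)
    have h4 := inv_mem h3
    have h5 : (t ^ (m - n) * g * t ^ (-(m - n + n)))⁻¹ = t ^ m * g⁻¹ * t ^ (-(m + -n)) := by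
      rw [sub_add_cancel, mul_inv_rev, mul_inv_rev, ← zpow_neg, ← zpow_neg, neg_neg, ← mul_assoc]
      rfl
    rwa [h5] at h4
  | mul x y hx hy =>
    obtain ⟨C, hC⟩ := hx
    obtain ⟨C', hC'⟩ := hy
    rw [map_mul]
    obtain ⟨g, hg⟩ : ∃ g, g = PresentedGroup.mk ({rel} : Set F2) x := ⟨_, rfl⟩
    obtain ⟨h, hh⟩ : ∃ h, h = PresentedGroup.mk ({rel} : Set F2) y := ⟨_, rfl⟩
    rw [← hg] at hC
    rw [← hh] at hC'
    rw [← hg, ← hh]
    obtain ⟨n, hn⟩ : ∃ n, n = Multiplicative.toAdd (chi g) := ⟨_, rfl⟩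
    obtain ⟨n', hn'⟩ : ∃ n, n = Multiplicative.toAdd (chi h) := ⟨_, rfl⟩
    rw [← hn] at hC
    rw [← hn'] at hC'
    have h2 : Multiplicative.toAdd (chi (g * h)) = n + n' := by rw [map_mul, toAdd_mul, hn, hn']
    rw [h2]
    refine ⟨C + C' + n.natAbs, fun m hm => ?_⟩
    have h3 := hC m (by omega)
    have h4 := hC' (m + n) (by omega)
    have h5 : t ^ m * (g * h) * t ^ (-(m + (n + n'))) =
        (t ^ m * g * t ^ (-(m + n))) * (t ^ (m + n) * h * t ^ (-(m + n + n'))) := by
      rw [← add_assoc]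
      have : t ^ (-(m + n)) * t ^ (m + n) = 1 := by rw [← zpow_add]; simp
      calc t ^ m * (g * h) * t ^ (-(m + n + n')) =
          t ^ m * g * 1 * h * t ^ (-(m + n + n')) := by group
        _ = _ := by rw [← this]; simp only [mul_assoc]
    rw [h5]
    exact mul_mem h3 h4

/-- the kernel is locally free -/
theorem locallyFree (H : Subgroup Gp) (hH : H ≤ chi.ker) (hfg : H.FG) : IsFreeGroup H := by
  classical
  obtain ⟨S, hS⟩ := hfg
  -- a common exponent
  obtain ⟨m, hm⟩ : ∃ m : ℤ, ∀ g ∈ H, t ^ m * g * t ^ (-m) ∈ j.range := by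
    choose C hC using exists_conj
    refine ⟨(S.sup C : ℕ), fun g hg => ?_⟩
    have h1 : H ≤ (j.range).comap (MulAut.conj (t ^ ((S.sup C : ℕ) : ℤ))).toMonoidHom := by
      rw [← hS, Subgroup.closure_le]
      intro x hx
      have h2 := hC x ((S.sup C : ℕ) : ℤ) (by exact_mod_cast Finset.le_sup hx)
      have h3 : chi x = 1 := hH (hS ▸ Subgroup.subset_closure hx)
      rw [h3, toAdd_one, add_zero, zpow_neg] at h2
      exact h2
    have h2 := h1 hg
    rw [zpow_neg]
    exact h2
  let c : Gp ≃* Gp := MulAut.conj (t ^ m)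
  have h1 : H.map c.toMonoidHom ≤ j.range := by
    rintro _ ⟨g, hg, rfl⟩
    have := hm g hg
    rw [zpow_neg] at this
    exact this
  have h2 : IsFreeGroup j.range := IsFreeGroup.ofMulEquiv (MonoidHom.ofInjective j_inj)
  have h3 : IsFreeGroup ((H.map c.toMonoidHom).subgroupOf j.range) := inferInstance
  have h4 : IsFreeGroup (H.map c.toMonoidHom) :=
    IsFreeGroup.ofMulEquiv (Subgroup.subgroupOfEquivOfLe h1)
  exact IsFreeGroup.ofMulEquiv (H.equivMapOfInjective c.toMonoidHom c.injective).symm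

theorem main :
    ∃ (n : ℕ) (r : FreeGroup (Fin n)),
      (∀ g : PresentedGroup ({r} : Set (FreeGroup (Fin n))), g ≠ 1 →
        ∃ N : Subgroup (PresentedGroup ({r} : Set (FreeGroup (Fin n)))),
          N.Normal ∧ N.FiniteIndex ∧ g ∉ N) ∧
      ∃ g : PresentedGroup ({r} : Set (FreeGroup (Fin n))), g ≠ 1 ∧
        ∀ k : ℕ, g ∈ derivedSeries (PresentedGroup ({r} : Set (FreeGroup (Fin n)))) k := by
  refine ⟨2, rel, ?_, a, a_ne, ?_⟩
  · intro g hg
    have hfg : Group.FG Gp := Group.fg_of_surjective (f := PresentedGroup.mk ({rel} : Set F2))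
      (PresentedGroup.mk_surjective _)
    obtain ⟨N, h1, h2, h3⟩ := DF.rf_of_locallyFree_by_Z chi chi_surj locallyFree g hg
    exact ⟨N, h1, ⟨h2⟩, h3⟩
  · intro k
    have := an_mem k 0
    simpa [an] using this

end Pool.Agent.R664.OR
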